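import Pool.Agent.H8T.Stm

/-!
# PROJECT NT, piece CNT: many pairs from one good approximation
-/

set_option autoImplicit false

namespace Pool.Agent.H8T

open Real Filter Topology
open Pool.Agent.R532.Nc (pairsUpTo nearUpTo nearMisses)

namespace CNT

theorem fin {a b : ℝ} (ha : 1 < a) (hb : 1 < b) (x T : ℝ) : (pairsUpTo a b 1 x T).Finite := by
  obtain ⟨K, hK⟩ := exists_nat_ge T
  obtain ⟨M, hM⟩ := pow_unbounded_of_one_lt (a ^ K + x) hb
  refine ((Set.finite_Iic K).prod (Set.finite_Iio M)).subset ?_
  rintro ⟨n, m⟩ ⟨h1, h2⟩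
  simp only at h1 h2
  have hn : n ≤ K := by
    have : (n : ℝ) ≤ K := le_trans h1 hK
    exact_mod_cast this
  refine ⟨hn, ?_⟩
  have h3 : b ^ m ≤ a ^ n + x := by
    rw [one_mul] at h2
    have := (abs_le.1 h2).1
    linarith
  have h4 : a ^ n ≤ a ^ K := pow_le_pow_right₀ ha.le hn
  have h5 : b ^ m < b ^ M := by linarith
  exact (pow_lt_pow_iff_right₀ hb).1 h5

end CNT

theorem t_CNT : S_CNT := by
  intro a b ha hb
  have hA : 0 < log a := Real.log_pos ha
  have hB : 0 < log b := Real.log_pos hb
  have ha0 : 0 < a := by linarith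
  have hb0 : 0 < b := by linarith
  refine ⟨1 / (2 * (log a + 1)), 2 * log (2 * log b + 1), by positivity, ?_⟩
  intro q p J L hq hL hqp hJ x T hx hT
  have hq1 : (1 : ℝ) ≤ q := by exact_mod_cast hq
  have key : ∀ j : ℕ, j ≤ J → (j * q, j * p) ∈ pairsUpTo a b 1 x T := by
    intro j hjJ
    have hjJ' : (j : ℝ) ≤ J := by exact_mod_cast hjJ
    have hj0 : (0 : ℝ) ≤ j := Nat.cast_nonneg j
    have hq0 : (0 : ℝ) ≤ q := by linarith
    have hjq' : (j : ℝ) * q ≤ J * q := mul_le_mul_of_nonneg_right hjJ' hq0
    have hjq : (j : ℝ) * q ≤ 1 / (2 * (log a + 1)) * L := le_trans hjq' hJ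
    have hjle : (j : ℝ) ≤ j * q := le_mul_of_one_le_right hj0 hq1
    have h1 : (j : ℝ) * q * (log a + 1) ≤ L / 2 := by
      have h : 1 / (2 * (log a + 1)) * L * (log a + 1) = L / 2 := by
        field_simp
      calc (j : ℝ) * q * (log a + 1) ≤ 1 / (2 * (log a + 1)) * L * (log a + 1) :=
            mul_le_mul_of_nonneg_right hjq (by linarith)
        _ = _ := h
    have h2 : (j : ℝ) + log (2 * log b + 1) + j * q * log a ≤ L := by
      have h : (j : ℝ) * q * (log a + 1) = j * q * log a + j * q := by ring
      linarith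
    have h3 : 2 * (j : ℝ) * log b ≤ exp j * (2 * log b + 1) := by
      have h := Real.add_one_le_exp (j : ℝ)
      have h' : (j : ℝ) ≤ exp j := by linarith
      have h'' : (j : ℝ) * (2 * log b) ≤ exp j * (2 * log b + 1) :=
        mul_le_mul h' (by linarith) (by linarith) (Real.exp_pos _).le
      linarith
    have h4 : 2 * (j : ℝ) * log b * exp (j * q * log a) * exp (-L) ≤ 1 := by
      calc 2 * (j : ℝ) * log b * exp (j * q * log a) * exp (-L)
          ≤ exp j * (2 * log b + 1) * exp (j * q * log a) * exp (-L) :=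
            mul_le_mul_of_nonneg_right (mul_le_mul_of_nonneg_right h3 (Real.exp_pos _).le)
              (Real.exp_pos _).le
        _ = exp (j + log (2 * log b + 1) + j * q * log a + -L) := by
            rw [exp_add, exp_add, exp_add, exp_log (by linarith)]
        _ ≤ 1 := by
            rw [Real.exp_le_one_iff]
            linarith
    have hd : |(j : ℝ) * p * log b - j * q * log a| ≤ j * log b * exp (-L) := by
      have h : (j : ℝ) * p * log b - j * q * log a =
          -(j * log b * (q * (log a / log b) - p)) := by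
        field_simp
        ring
      rw [h, abs_neg, abs_mul, abs_of_nonneg (by positivity)]
      exact mul_le_mul_of_nonneg_left hqp (by positivity)
    have he1 : (1 : ℝ) ≤ exp (j * q * log a) := Real.one_le_exp (by positivity)
    have h5 : (j : ℝ) * log b * exp (-L) ≤ j * log b * exp (j * q * log a) * exp (-L) := by
      have h : (j : ℝ) * log b * 1 ≤ j * log b * exp (j * q * log a) :=
        mul_le_mul_of_nonneg_left he1 (by positivity)
      rw [mul_one] at h
      exact mul_le_mul_of_nonneg_right h (Real.exp_pos _).le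
    have hd1 : |(j : ℝ) * p * log b - j * q * log a| ≤ 1 := by
      have h0 : 0 ≤ (j : ℝ) * log b * exp (j * q * log a) * exp (-L) := by positivity
      have h : 2 * (j : ℝ) * log b * exp (j * q * log a) * exp (-L) =
        2 * (j * log b * exp (j * q * log a) * exp (-L)) := by ring
      linarith
    refine ⟨?_, ?_⟩
    · show ((j * q : ℕ) : ℝ) ≤ T
      push_cast
      linarith
    · show |1 * a ^ (j * q) - b ^ (j * p)| ≤ x
      have e1 : a ^ (j * q) = exp (j * q * log a) := by
        have h := Real.exp_nat_mul (log a) (j * q)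
        rw [Real.exp_log ha0] at h
        rw [← h]
        push_cast
        rfl
      have e2 : b ^ (j * p) = exp (j * p * log b) := by
        have h := Real.exp_nat_mul (log b) (j * p)
        rw [Real.exp_log hb0] at h
        rw [← h]
        push_cast
        rfl
      have e3 : 1 * a ^ (j * q) - b ^ (j * p) =
          -(exp (j * q * log a) * (exp ((j : ℝ) * p * log b - j * q * log a) - 1)) := by
        rw [e1, e2, mul_sub, ← exp_add]
        ring_nf
      rw [e3, abs_neg, abs_mul, abs_of_pos (Real.exp_pos _)]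
      have h6 := Real.abs_exp_sub_one_le hd1
      calc exp (j * q * log a) * |exp ((j : ℝ) * p * log b - j * q * log a) - 1|
          ≤ exp (j * q * log a) * (2 * (j * log b * exp (-L))) :=
            mul_le_mul_of_nonneg_left (by linarith) (Real.exp_pos _).le
        _ = 2 * (j : ℝ) * log b * exp (j * q * log a) * exp (-L) := by ring
        _ ≤ 1 := h4
        _ ≤ x := hx
  have hinj : Function.Injective fun j : ℕ => ((j * q, j * p) : ℕ × ℕ) := by
    intro i j h
    have h1 : i * q = j * q := congrArg Prod.fst h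
    exact Nat.eq_of_mul_eq_mul_right (by omega) h1
  have hsub : (((Finset.Icc 1 J).image fun j : ℕ => ((j * q, j * p) : ℕ × ℕ) :
      Finset (ℕ × ℕ)) : Set (ℕ × ℕ)) ⊆ pairsUpTo a b 1 x T := by
    intro z hz
    rw [Finset.mem_coe, Finset.mem_image] at hz
    obtain ⟨j, hj, rfl⟩ := hz
    exact key j (Finset.mem_Icc.1 hj).2
  have hcard := Set.ncard_le_ncard hsub (CNT.fin ha hb x T)
  rw [Set.ncard_coe_finset, Finset.card_image_of_injective _ hinj, Nat.card_Icc] at hcard
  have : J ≤ (pairsUpTo a b 1 x T).ncard := by omega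
  exact_mod_cast this

end Pool.Agent.H8T
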