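import Pool.Agent.H8T.Stm

/-!
# Piece FIN (project NT): assembly of SEQ, THE, CNT
-/

set_option autoImplicit false

namespace Pool.Agent.H8T

open Real Filter Topology
open Pool.Agent.R532.Nc (pairsUpTo nearUpTo nearMisses)

namespace FIN

theorem choose_dyadic {α β : ℝ} (h0 : 0 ≤ α) (h : α < β) :
    ∃ n P : ℕ, α ≤ (P : ℝ) / 2 ^ n ∧ ((P : ℝ) + 1) / 2 ^ n ≤ β := by
  obtain ⟨n, hn⟩ := pow_unbounded_of_one_lt (2 / (β - α)) (one_lt_two : (1:ℝ) < 2)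
  have hd : 0 < β - α := by linarith
  have h2 : (0:ℝ) < 2 ^ n := by positivity
  have hn' : 2 < 2 ^ n * (β - α) := by
    rwa [div_lt_iff₀ hd] at hn
  refine ⟨n, ⌈2 ^ n * α⌉₊, ?_, ?_⟩
  · rw [le_div_iff₀ h2]
    have := Nat.le_ceil (2 ^ n * α)
    linarith
  · rw [div_le_iff₀ h2]
    have := Nat.ceil_lt_add_one (show 0 ≤ 2 ^ n * α by positivity)
    linarith

theorem L_ge {A B k : ℕ} (h : 4 * A + k + 4 < B) :
    (B : ℝ) / 4 ≤ ((B : ℝ) - A - 1) * log 2 := by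
  have h1 : (4 * A + k + 5 : ℝ) ≤ B := by exact_mod_cast h
  have h2 : (1:ℝ) / 2 ≤ log 2 := by
    have := Real.log_two_gt_d9
    linarith
  have hA : (0:ℝ) ≤ A := Nat.cast_nonneg A
  have hk : (0:ℝ) ≤ k := Nat.cast_nonneg k
  have h3 : (B:ℝ) / 2 ≤ (B : ℝ) - A - 1 := by linarith
  have hB : (0:ℝ) ≤ B := Nat.cast_nonneg B
  calc (B : ℝ) / 4 = (B : ℝ) / 2 * (1 / 2) := by ring
    _ ≤ ((B : ℝ) - A - 1) * log 2 := mul_le_mul h3 h2 (by norm_num) (by linarith)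

theorem exp_eq (A B : ℕ) : exp (-(((B : ℝ) - A - 1) * log 2)) = 2 * 2 ^ A / 2 ^ B := by
  have e : -(((B : ℝ) - A - 1) * log 2) = log 2 + A * log 2 - B * log 2 := by ring
  rw [e, Real.exp_sub, Real.exp_add, Real.exp_nat_mul, Real.exp_nat_mul, Real.exp_log two_pos]

theorem pow_le_exp (A : ℕ) : (2:ℝ) ^ A ≤ exp A := by
  have h : (2:ℝ) ≤ exp 1 := by
    have := Real.add_one_le_exp (1:ℝ)
    linarith
  calc (2:ℝ) ^ A ≤ exp 1 ^ A := pow_le_pow_left₀ (by norm_num) h A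
    _ = exp A := by rw [← Real.exp_nat_mul, mul_one]

end FIN

theorem t_FIN (h1 : S_SEQ) (h2 : S_THE) (h3 : S_CNT) : S_FIN := by
  intro b u v h hb hu huv hh
  have hlb : 0 < log b := Real.log_pos hb
  have hlu : 0 < log u := Real.log_pos hu
  have hαβ : log u / log b < log v / log b :=
    div_lt_div_of_pos_right (Real.log_lt_log (by linarith) huv) hlb
  obtain ⟨n₀, P, hP1, hP2⟩ := FIN.choose_dyadic (by positivity) hαβ
  obtain ⟨N, hN0, hN, hNh⟩ := h1 h hh n₀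
  obtain ⟨θ, hθ1, hθ2, hirr, hp⟩ := h2 N hN P
  rw [hN0] at hθ1 hθ2
  have hθu : log u / log b < θ := lt_of_le_of_lt hP1 hθ1
  have hθv : θ < log v / log b := lt_of_lt_of_le hθ2 hP2
  have hlab : log (exp (θ * log b)) / log b = θ := by
    rw [Real.log_exp]
    field_simp
  have hua : u < exp (θ * log b) := by
    rw [← Real.log_lt_iff_lt_exp (by linarith)]
    rwa [div_lt_iff₀ hlb] at hθu
  have hav : exp (θ * log b) < v := by
    rw [← Real.lt_log_iff_exp_lt (by linarith)]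
    rwa [lt_div_iff₀ hlb] at hθv
  refine ⟨exp (θ * log b), hua, hav, by rwa [hlab], ?_⟩
  obtain ⟨c, L₀, hc, hC⟩ := h3 (exp (θ * log b)) b (by linarith) hb
  rw [hlab] at hC
  intro M₀
  -- the threshold
  set M : ℝ := max M₀ 1 with hM
  have hM1 : 1 ≤ M := le_max_right _ _
  set D : ℕ → ℝ := fun k => c / 4 * N (k + 1) / 2 ^ N k with hD
  have hD0 : ∀ k, 0 ≤ D k := fun k => by positivity
  obtain ⟨K₀, hK₀⟩ := exists_nat_ge (max (M + 8 * M / c) (4 * L₀))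
  have hK1 : M + 8 * M / c ≤ K₀ := (le_max_left _ _).trans hK₀
  have hK2 : 4 * L₀ ≤ K₀ := (le_max_right _ _).trans hK₀
  set S : ℝ := ∑ k ∈ Finset.range (K₀ + 1), D k with hS
  have hS0 : 0 ≤ S := Finset.sum_nonneg fun k _ => hD0 k
  refine ⟨exp (1 + S), fun x hx => ?_⟩
  have hx0 : 0 < x := (Real.exp_pos _).trans_le hx
  have hx1 : 1 ≤ x := by
    have : 1 ≤ exp (1 + S) := Real.one_le_exp (by linarith)
    linarith
  have hl : 1 + S ≤ log x := (Real.le_log_iff_exp_le hx0).2 hx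
  set l : ℝ := log x with hldef
  have hl1 : 1 ≤ l := by linarith
  have hll : l ≤ l ^ 2 := by nlinarith
  have hl2 : 1 ≤ l ^ 2 := by linarith
  have hMl : l ^ 2 ≤ M * l ^ 2 := le_mul_of_one_le_left (by positivity) hM1
  -- existence of `k`
  have hex : ∃ k, M * l ^ 2 + 1 ≤ D k := by
    obtain ⟨k, hk⟩ := exists_nat_gt (max (h x) (4 * (M + 1) / c))
    have hk1 : h x < k := (le_max_left _ _).trans_lt hk
    have hk2 : 4 * (M + 1) / c < k := (le_max_right _ _).trans_lt hk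
    refine ⟨k, ?_⟩
    have hpow : (1:ℝ) ≤ 2 ^ N k := one_le_pow₀ (by norm_num)
    have hnot : ¬ ((k:ℝ) + 1) * 2 ^ N k ≤ h x := by
      intro hle
      have h5 : ((k:ℝ) + 1) * 1 ≤ ((k:ℝ) + 1) * 2 ^ N k :=
        mul_le_mul_of_nonneg_left hpow (by positivity)
      linarith
    have h6 : ((k:ℝ) + 1) * 2 ^ N k * l ^ 2 < N (k + 1) := by
      by_contra hc'
      exact hnot (hNh k x hx1 (not_lt.1 hc'))
    have h7 : 4 * (M + 1) < k * c := by
      rwa [div_lt_iff₀ hc] at hk2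
    show M * l ^ 2 + 1 ≤ c / 4 * N (k + 1) / 2 ^ N k
    rw [le_div_iff₀ (by positivity)]
    have h8 : c / 4 * (((k:ℝ) + 1) * 2 ^ N k * l ^ 2) ≤ c / 4 * N (k + 1) :=
      mul_le_mul_of_nonneg_left h6.le (by positivity)
    refine le_trans ?_ h8
    have h9 : M * l ^ 2 + 1 ≤ (M + 1) * l ^ 2 := by linarith
    have h10 : M + 1 ≤ c / 4 * (k + 1) := by linarith
    have h11 : (M + 1) * l ^ 2 ≤ c / 4 * (k + 1) * l ^ 2 :=
      mul_le_mul_of_nonneg_right h10 (by positivity)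
    calc (M * l ^ 2 + 1) * 2 ^ N k ≤ (c / 4 * (k + 1) * l ^ 2) * 2 ^ N k :=
          mul_le_mul_of_nonneg_right (h9.trans h11) (by positivity)
      _ = c / 4 * (((k:ℝ) + 1) * 2 ^ N k * l ^ 2) := by ring
  classical
  obtain ⟨k, hk, hkmin⟩ : ∃ k, M * l ^ 2 + 1 ≤ D k ∧ ∀ m < k, ¬ M * l ^ 2 + 1 ≤ D m :=
    ⟨Nat.find hex, Nat.find_spec hex, fun m hm => Nat.find_min hex hm⟩
  have hkK : K₀ < k := by
    by_contra hcon
    have h5 : D k ≤ S := Finset.single_le_sum (f := D) (fun i _ => hD0 i)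
      (Finset.mem_range.2 (by omega))
    linarith
  obtain ⟨k', rfl⟩ : ∃ k', k = k' + 1 := ⟨k - 1, by omega⟩
  have hmin := not_le.1 (hkmin k' (by omega))
  have hkR : (K₀ : ℝ) ≤ (k' : ℝ) + 1 := by exact_mod_cast hkK.le
  -- `J`
  set J : ℕ := ⌈M * l ^ 2⌉₊ with hJ
  have hJ1 : M * l ^ 2 ≤ J := Nat.le_ceil _
  have hJ2 : (J : ℝ) < M * l ^ 2 + 1 := Nat.ceil_lt_add_one (by positivity)
  set A : ℕ := N (k' + 1) with hA
  set B : ℕ := N (k' + 1 + 1) with hB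
  have hAB : 4 * A + (k' + 1) + 4 < B := hN (k' + 1)
  have hABR : (4 * A + (k' + 1) + 5 : ℝ) ≤ B := by exact_mod_cast hAB
  have hLge := FIN.L_ge hAB
  obtain ⟨p, hp'⟩ := hp (k' + 1)
  rw [← FIN.exp_eq] at hp'
  have hpA : (0:ℝ) < 2 ^ A := by positivity
  have hJq : (J : ℝ) * ((2 ^ A : ℕ) : ℝ) ≤ c * (((B : ℝ) - A - 1) * log 2) := by
    push_cast
    have h5 : (M * l ^ 2 + 1) * 2 ^ A ≤ c / 4 * B := by
      have h6 : M * l ^ 2 + 1 ≤ c / 4 * B / 2 ^ A := hk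
      rwa [le_div_iff₀ hpA] at h6
    calc (J : ℝ) * 2 ^ A ≤ (M * l ^ 2 + 1) * 2 ^ A :=
          mul_le_mul_of_nonneg_right hJ2.le hpA.le
      _ ≤ c / 4 * B := h5
      _ = c * (B / 4) := by ring
      _ ≤ c * (((B : ℝ) - A - 1) * log 2) := mul_le_mul_of_nonneg_left hLge hc.le
  have hL₀ : L₀ ≤ ((B : ℝ) - A - 1) * log 2 := by
    have hA0 : (0:ℝ) ≤ A := Nat.cast_nonneg A
    linarith
  -- the size of `J q`
  have hpk : (1:ℝ) ≤ 2 ^ N k' := one_le_pow₀ (by norm_num)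
  have hAlt : (A : ℝ) < 8 * M / c * 2 ^ N k' * l ^ 2 := by
    have h5 : c / 4 * (A : ℝ) / 2 ^ N k' < M * l ^ 2 + 1 := hmin
    rw [div_lt_iff₀ (by positivity)] at h5
    have h6 : (M * l ^ 2 + 1) * 2 ^ N k' ≤ (2 * (M * l ^ 2)) * 2 ^ N k' :=
      mul_le_mul_of_nonneg_right (by linarith) (by positivity)
    have h7 : c / 4 * (A : ℝ) < (2 * (M * l ^ 2)) * 2 ^ N k' := h5.trans_le h6
    have e : 8 * M / c * 2 ^ N k' * l ^ 2 = ((2 * (M * l ^ 2)) * 2 ^ N k') / (c / 4) := by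
      field_simp
      ring
    rw [e, lt_div_iff₀ (by positivity)]
    linarith
  have h8M : 0 ≤ 8 * M / c := by positivity
  have hAle : (A : ℝ) ≤ ((k' : ℝ) + 1) * 2 ^ N k' * l ^ 2 := by
    refine hAlt.le.trans ?_
    have h5 : 8 * M / c ≤ (k' : ℝ) + 1 := by linarith
    exact mul_le_mul_of_nonneg_right (mul_le_mul_of_nonneg_right h5 (by positivity)) (by positivity)
  have hh2 : ((k' : ℝ) + 1) * 2 ^ N k' ≤ h x := hNh k' x hx1 hAle
  have hsum : M * l ^ 2 + A ≤ h x * l ^ 2 := by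
    have h5 : M * l ^ 2 ≤ M * 2 ^ N k' * l ^ 2 := by
      have h6 : M ≤ M * 2 ^ N k' := le_mul_of_one_le_right (by linarith) hpk
      exact mul_le_mul_of_nonneg_right h6 (by positivity)
    have h6 : (M + 8 * M / c) * 2 ^ N k' * l ^ 2 ≤ h x * l ^ 2 := by
      refine mul_le_mul_of_nonneg_right (le_trans ?_ hh2) (by positivity)
      exact mul_le_mul_of_nonneg_right (by linarith) (by positivity)
    have e : (M + 8 * M / c) * 2 ^ N k' * l ^ 2 =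
      M * 2 ^ N k' * l ^ 2 + 8 * M / c * 2 ^ N k' * l ^ 2 := by ring
    linarith
  have hJT : (J : ℝ) * ((2 ^ A : ℕ) : ℝ) ≤ exp (h x * l ^ 2) := by
    push_cast
    have h5 : (J : ℝ) ≤ exp (M * l ^ 2) := hJ2.le.trans (Real.add_one_le_exp _)
    calc (J : ℝ) * 2 ^ A ≤ exp (M * l ^ 2) * exp A :=
          mul_le_mul h5 (FIN.pow_le_exp A) hpA.le (Real.exp_pos _).le
      _ = exp (M * l ^ 2 + A) := (Real.exp_add _ _).symm
      _ ≤ exp (h x * l ^ 2) := Real.exp_le_exp.2 hsum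
  have hfin := hC (2 ^ A) p J (((B : ℝ) - A - 1) * log 2) Nat.one_le_two_pow hL₀
    (by push_cast; exact hp') hJq x (exp (h x * l ^ 2)) hx1 hJT
  have h5 : M₀ * l ^ 2 ≤ M * l ^ 2 := mul_le_mul_of_nonneg_right (le_max_left _ _) (by positivity)
  linarith

end Pool.Agent.H8T
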