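import Pool.Agent.R532.Nc2

/-! Near misses are rare at infinitely many scales. -/

set_option autoImplicit false

namespace Pool.Agent.H8T

open Real Filter Topology
open Pool.Agent.R532.Nc (pairsUpTo nearUpTo nearMisses lin_form nearUpTo_fin)

theorem irr_gap {θ : ℝ} (hθ : Irrational θ) (M : ℕ) : ∃ c : ℝ, 0 < c ∧ ∀ q : ℕ, 1 ≤ q → q ≤ M →
    ∀ p : ℕ, c ≤ |(q : ℝ) * θ - p| := by
  induction M with
  | zero => exact ⟨1, one_pos, fun q h1 h2 => by omega⟩
  | succ M ih =>
    obtain ⟨c, hc, h⟩ := ih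
    have hpos : 0 < |((M + 1 : ℕ) : ℝ) * θ - round (((M + 1 : ℕ) : ℝ) * θ)| := by
      rw [abs_pos, sub_ne_zero]
      intro h1
      have h2 : Irrational (((M + 1 : ℕ) : ℝ) * θ) := by
        have := hθ.natCast_mul (Nat.succ_ne_zero M)
        simpa using this
      exact h2 ⟨((round (((M + 1 : ℕ) : ℝ) * θ) : ℤ) : ℚ), by rw [h1]; simp⟩
    refine ⟨min c |((M + 1 : ℕ) : ℝ) * θ - round (((M + 1 : ℕ) : ℝ) * θ)|, lt_min hc hpos,
      fun q h1 h2 p => ?_⟩
    rcases Nat.lt_or_ge M q with h3 | h3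
    · have h4 : q = M + 1 := by omega
      subst h4
      refine (min_le_right _ _).trans ?_
      have := round_le (((M + 1 : ℕ) : ℝ) * θ) (p : ℤ)
      simpa using this
    · exact (min_le_left _ _).trans (h q h1 h3 p)

theorem near_lin {a b : ℝ} (ha : 1 < a) (hb : 1 < b) {n m : ℕ} (h : (n, m) ∈ nearMisses a b 1)
    (h4 : 4 ≤ a ^ n) :
    |(n : ℝ) * (log a / log b) - m| ≤ 2 / log b * exp (-(log a / 2 * n)) := by
  have hlb : 0 < log b := log_pos hb
  have h1 := lin_form ha hb one_pos h (by rwa [one_mul])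
  rw [one_mul, log_one, zero_add] at h1
  have h2 : √(a ^ n) = exp (log a / 2 * n) := by
    rw [Real.sqrt_eq_iff_mul_self_eq (by positivity) (exp_pos _).le, ← exp_add]
    rw [← Real.exp_log (show 0 < a ^ n by positivity), log_pow]
    congr 1
    ring
  rw [h2] at h1
  have h3 : (n : ℝ) * (log a / log b) - m = (n * log a - m * log b) / log b := by
    field_simp
  rw [h3, abs_div, abs_of_pos hlb, div_le_iff₀ hlb]
  refine h1.trans (le_of_eq ?_)
  rw [exp_neg]
  field_simp

theorem prop_of {θ : ℝ} {n m n' m' : ℕ} {d d' : ℝ} (h : |(n : ℝ) * θ - m| ≤ d)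
    (h' : |(n' : ℝ) * θ - m'| ≤ d') (hd : n * d' + n' * d < 1) : n * m' = n' * m := by
  have h1 : |((n * m' : ℕ) : ℝ) - ((n' * m : ℕ) : ℝ)| < 1 := by
    have e : ((n * m' : ℕ) : ℝ) - ((n' * m : ℕ) : ℝ) =
        n' * (n * θ - m) - n * (n' * θ - m') := by
      push_cast; ring
    rw [e]
    refine lt_of_le_of_lt (abs_sub _ _) ?_
    rw [abs_mul, abs_mul, Nat.abs_cast, Nat.abs_cast]
    have g1 := mul_le_mul_of_nonneg_left h (Nat.cast_nonneg (α := ℝ) n')
    have g2 := mul_le_mul_of_nonneg_left h' (Nat.cast_nonneg (α := ℝ) n)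
    linarith
  have h2 : |((n * m' : ℕ) : ℤ) - ((n' * m : ℕ) : ℤ)| < 1 := by
    exact_mod_cast h1
  rw [Int.abs_lt_one_iff] at h2
  omega

/-- reduced direction of a pair -/
theorem reduced {θ : ℝ} {n m : ℕ} (hn : 1 ≤ n) : ∃ q p : ℕ, 1 ≤ q ∧ q ≤ n ∧ Nat.Coprime q p ∧
    (∃ g : ℕ, 1 ≤ g ∧ n = g * q ∧ m = g * p) ∧ |(q : ℝ) * θ - p| ≤ |(n : ℝ) * θ - m| := by
  have hg : 0 < Nat.gcd n m := Nat.gcd_pos_of_pos_left m (by omega)
  obtain ⟨q, hq⟩ := Nat.gcd_dvd_left n m
  obtain ⟨p, hp⟩ := Nat.gcd_dvd_right n m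
  have hq1 : 1 ≤ q := by
    rcases Nat.eq_zero_or_pos q with h | h
    · rw [h, mul_zero] at hq; omega
    · exact h
  refine ⟨q, p, hq1, ?_, ?_, ⟨Nat.gcd n m, hg, hq, hp⟩, ?_⟩
  · calc q ≤ Nat.gcd n m * q := Nat.le_mul_of_pos_left q hg
      _ = n := hq.symm
  · have h1 := Nat.coprime_div_gcd_div_gcd (m := n) (n := m) hg
    have h2 : n / Nat.gcd n m = q := Nat.div_eq_of_eq_mul_right hg hq
    have h3 : m / Nat.gcd n m = p := Nat.div_eq_of_eq_mul_right hg hp
    rwa [h2, h3] at h1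
  · have e : (n : ℝ) * θ - m = (Nat.gcd n m : ℝ) * (q * θ - p) := by
      have e1 : (n : ℝ) = (Nat.gcd n m : ℝ) * q := by exact_mod_cast hq
      have e2 : (m : ℝ) = (Nat.gcd n m : ℝ) * p := by exact_mod_cast hp
      rw [mul_sub, ← mul_assoc, ← e1, ← e2]
    rw [e, abs_mul, Nat.abs_cast]
    have : (1 : ℝ) ≤ (Nat.gcd n m : ℝ) := by exact_mod_cast hg
    nlinarith [abs_nonneg ((q : ℝ) * θ - p)]

theorem exp_neg_le {y : ℝ} (hy : 0 < y) : exp (-y) ≤ 2 / y ^ 2 := by
  have h1 := Real.quadratic_le_exp_of_nonneg hy.le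
  rw [exp_neg, ← one_div, div_le_div_iff₀ (exp_pos _) (by positivity)]
  nlinarith

theorem block {a b : ℝ} (ha : 1 < a) (hb : 1 < b) (hθ : Irrational (log a / log b)) {η : ℝ}
    (hη : 0 < η) (M : ℕ) (hM : 1 ≤ M) : ∃ A₀ : ℝ, ∀ A : ℝ, A₀ ≤ A →
      ((nearUpTo a b 1 A).ncard : ℝ) ≤ η * A + A / M + 2 := by
  obtain ⟨c, hc, hgap⟩ := irr_gap hθ M
  have hla : 0 < log a := log_pos ha
  have hlb : 0 < log b := log_pos hb
  set θ : ℝ := log a / log b with hθd
  set lam : ℝ := log a / 2 with hlam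
  have hlam0 : 0 < lam := by positivity
  set C0 : ℝ := 2 / log b with hC0
  have hC00 : 0 < C0 := by positivity
  obtain ⟨k4, hk4⟩ := pow_unbounded_of_one_lt (4 : ℝ) ha
  refine ⟨max (max 1 (k4 / η)) (max (5 * C0 / (lam * η) ^ 2) (3 * C0 / (c * (lam * η) ^ 2))),
    fun A hA => ?_⟩
  have hA1 : 1 ≤ A := (le_max_left _ _).trans ((le_max_left _ _).trans hA)
  have hA2 : k4 / η ≤ A := (le_max_right _ _).trans ((le_max_left _ _).trans hA)
  have hA3 : 5 * C0 / (lam * η) ^ 2 ≤ A := (le_max_left _ _).trans ((le_max_right _ _).trans hA)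
  have hA4 : 3 * C0 / (c * (lam * η) ^ 2) ≤ A :=
    (le_max_right _ _).trans ((le_max_right _ _).trans hA)
  have hA0 : 0 < A := by linarith
  set D : ℝ := C0 * exp (-(lam * (η * A))) with hD
  have hD0 : 0 < D := by positivity
  have hDle : D ≤ C0 * (2 / (lam * (η * A)) ^ 2) :=
    mul_le_mul_of_nonneg_left (exp_neg_le (by positivity)) hC00.le
  have hDA : A * D + A * D < 1 := by
    have h1 : A * D ≤ A * (C0 * (2 / (lam * (η * A)) ^ 2)) := mul_le_mul_of_nonneg_left hDle hA0.le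
    have h2 : A * (C0 * (2 / (lam * (η * A)) ^ 2)) = 2 * C0 / (lam * η) ^ 2 / A := by
      field_simp
    have h3 : 2 * C0 / (lam * η) ^ 2 / A < 1 / 2 := by
      rw [div_lt_iff₀ hA0]
      have : 5 * C0 / (lam * η) ^ 2 = 5 / 2 * (2 * C0 / (lam * η) ^ 2) := by ring
      rw [this] at hA3
      have hp : 0 < 2 * C0 / (lam * η) ^ 2 := by positivity
      linarith
    linarith
  have hDc : D < c := by
    have h1 : C0 * (2 / (lam * (η * A)) ^ 2) = 2 * C0 / (lam * η) ^ 2 / A / A := by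
      field_simp
    have h2 : 2 * C0 / (lam * η) ^ 2 / A / A ≤ 2 * C0 / (lam * η) ^ 2 / A := by
      have hp : 0 < 2 * C0 / (lam * η) ^ 2 / A := by positivity
      rw [div_le_iff₀ hA0]
      nlinarith
    have h3 : 2 * C0 / (lam * η) ^ 2 / A < c := by
      rw [div_lt_iff₀ hA0]
      have hp : 0 < 2 * C0 / (c * (lam * η) ^ 2) := by positivity
      have e1 : 3 * C0 / (c * (lam * η) ^ 2) = 3 / 2 * (2 * C0 / (c * (lam * η) ^ 2)) := by ring
      rw [e1] at hA4
      have h5 : 2 * C0 / (c * (lam * η) ^ 2) < A := by linarith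
      have h6 := mul_lt_mul_of_pos_left h5 hc
      have e2 : c * (2 * C0 / (c * (lam * η) ^ 2)) = 2 * C0 / (lam * η) ^ 2 := by
        field_simp
      linarith
    linarith
  -- the linear forms of the near misses in the block
  have hlin : ∀ n m : ℕ, η * A < n → (n, m) ∈ nearMisses a b 1 → |(n : ℝ) * θ - m| ≤ D := by
    intro n m hn h
    have h4 : 4 ≤ a ^ n := by
      have h5 : (k4 : ℝ) < n := by
        have : (k4 : ℝ) ≤ A * η := by rwa [div_le_iff₀ hη] at hA2
        linarith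
      have h6 : k4 ≤ n := by exact_mod_cast h5.le
      exact hk4.le.trans (pow_le_pow_right₀ ha.le h6)
    refine (near_lin ha hb h h4).trans ?_
    refine mul_le_mul_of_nonneg_left (exp_le_exp.2 ?_) hC00.le
    rw [neg_le_neg_iff]
    exact mul_le_mul_of_nonneg_left hn.le hlam0.le
  have hcardI : ((Set.Iic ⌊η * A⌋₊ : Set ℕ).ncard : ℝ) ≤ η * A + 1 := by
    have h1 : (Set.Iic ⌊η * A⌋₊ : Set ℕ).ncard = ⌊η * A⌋₊ + 1 := by
      rw [← Finset.coe_Iic, Set.ncard_coe_finset, Nat.card_Iic]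
    rw [h1]
    push_cast
    linarith [Nat.floor_le (show 0 ≤ η * A by positivity)]
  by_cases hex : ∃ n : ℕ, η * A < n ∧ (n : ℝ) ≤ A ∧ ∃ m, (n, m) ∈ nearMisses a b 1
  · obtain ⟨n₁, hn1, hn1A, m₁, hm1⟩ := hex
    have hn1pos : 1 ≤ n₁ := by
      have : (0 : ℝ) < n₁ := lt_of_le_of_lt (by positivity) hn1
      exact_mod_cast this
    obtain ⟨q, p, hq1, -, hqp, ⟨g, hg1, hgn, hgm⟩, hred⟩ := reduced (θ := θ) (m := m₁) hn1pos
    have hqM : M < q := by
      by_contra hcon
      rw [not_lt] at hcon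
      have h1 := hgap q hq1 hcon p
      have h2 := hlin n₁ m₁ hn1 hm1
      linarith
    have hsub : nearUpTo a b 1 A ⊆ Set.Iic ⌊η * A⌋₊ ∪ (fun j => j * q) '' Set.Iic ⌊A / q⌋₊ := by
      rintro n ⟨hnA, m, hm⟩
      by_cases h1 : η * A < n
      · right
        have h2 := hlin n m h1 hm
        have h3 := hlin n₁ m₁ hn1 hm1
        have h4 : n * m₁ = n₁ * m := by
          refine prop_of h2 h3 ?_
          have g1 : (n : ℝ) * D ≤ A * D := mul_le_mul_of_nonneg_right hnA hD0.le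
          have g2 : (n₁ : ℝ) * D ≤ A * D := mul_le_mul_of_nonneg_right hn1A hD0.le
          linarith
        have h5 : n * p = q * m := by
          rw [hgn, hgm] at h4
          have h6 : g * (n * p) = g * (q * m) := by
            calc g * (n * p) = n * (g * p) := by ring
              _ = g * q * m := h4
              _ = g * (q * m) := by ring
          exact Nat.eq_of_mul_eq_mul_left (by omega) h6
        have h7 : q ∣ n := by
          have : q ∣ n * p := ⟨m, h5⟩
          exact (Nat.Coprime.dvd_mul_right hqp).1 this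
        obtain ⟨j, hj⟩ := h7
        refine ⟨j, ?_, by simp only []; rw [hj, mul_comm]⟩
        rw [Set.mem_Iic]
        refine Nat.le_floor ?_
        rw [le_div_iff₀ (by exact_mod_cast hq1)]
        have : ((q * j : ℕ) : ℝ) ≤ A := by rw [← hj]; exact hnA
        push_cast at this
        linarith
      · left
        rw [not_lt] at h1
        exact Nat.le_floor h1
    have hfin : (Set.Iic ⌊η * A⌋₊ ∪ (fun j => j * q) '' Set.Iic ⌊A / q⌋₊ : Set ℕ).Finite :=
      (Set.finite_Iic _).union ((Set.finite_Iic _).image _)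
    have h1 := Set.ncard_le_ncard hsub hfin
    have h2 := Set.ncard_union_le (Set.Iic ⌊η * A⌋₊) ((fun j => j * q) '' Set.Iic ⌊A / q⌋₊)
    have h3 : ((fun j => j * q) '' Set.Iic ⌊A / q⌋₊).ncard ≤ ⌊A / q⌋₊ + 1 := by
      refine (Set.ncard_image_le (Set.finite_Iic _)).trans (le_of_eq ?_)
      rw [← Finset.coe_Iic, Set.ncard_coe_finset, Nat.card_Iic]
    have h4 : ((nearUpTo a b 1 A).ncard : ℝ) ≤
        ((Set.Iic ⌊η * A⌋₊ : Set ℕ).ncard : ℝ) + ((⌊A / q⌋₊ + 1 : ℕ) : ℝ) := by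
      exact_mod_cast (h1.trans h2).trans (by omega)
    have h5 : ((⌊A / q⌋₊ + 1 : ℕ) : ℝ) ≤ A / M + 1 := by
      push_cast
      have g1 : (⌊A / q⌋₊ : ℝ) ≤ A / q := Nat.floor_le (by positivity)
      have g2 : A / q ≤ A / M := by
        refine div_le_div_of_nonneg_left hA0.le (by exact_mod_cast hM) ?_
        exact_mod_cast hqM.le
      linarith
    linarith
  · push Not at hex
    have hsub : nearUpTo a b 1 A ⊆ Set.Iic ⌊η * A⌋₊ := by
      rintro n ⟨hnA, m, hm⟩
      rw [Set.mem_Iic]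
      refine Nat.le_floor ?_
      by_contra hcon
      rw [not_le] at hcon
      exact hex n hcon hnA m hm
    have h1 := Set.ncard_le_ncard hsub (Set.finite_Iic _)
    have h2 : ((nearUpTo a b 1 A).ncard : ℝ) ≤ ((Set.Iic ⌊η * A⌋₊ : Set ℕ).ncard : ℝ) := by
      exact_mod_cast h1
    have h3 : (0 : ℝ) ≤ A / M := by positivity
    linarith

/-- near misses are rare at infinitely many scales -/
theorem inf {a b : ℝ} (ha : 1 < a) (hb : 1 < b) (hθ : Irrational (log a / log b)) {ε : ℝ}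
    (hε : 0 < ε) (Q₀ : ℝ) : ∃ Q : ℝ, Q₀ ≤ Q ∧ ((nearUpTo a b 1 Q).ncard : ℝ) ≤ ε * log Q := by
  have hla : 0 < log a := log_pos ha
  have hlb : 0 < log b := log_pos hb
  set θ : ℝ := log a / log b with hθd
  set lam : ℝ := log a / 2 with hlam
  have hlam0 : 0 < lam := by positivity
  set C0 : ℝ := 2 / log b with hC0
  have hC00 : 0 < C0 := by positivity
  obtain ⟨k4, hk4⟩ := pow_unbounded_of_one_lt (4 : ℝ) ha
  by_cases hbd : ∃ n₁ : ℕ, ∀ n m : ℕ, (n, m) ∈ nearMisses a b 1 → n ≤ n₁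
  · obtain ⟨n₁, hn₁⟩ := hbd
    refine ⟨max Q₀ (exp ((n₁ + 1) / ε)), le_max_left _ _, ?_⟩
    have h1 : (n₁ + 1 : ℝ) / ε ≤ log (max Q₀ (exp ((n₁ + 1) / ε))) := by
      rw [← log_exp ((n₁ + 1 : ℝ) / ε)]
      refine log_le_log (exp_pos _) ?_
      rw [log_exp]
      exact le_max_right _ _
    rw [div_le_iff₀ hε] at h1
    have hsub : nearUpTo a b 1 (max Q₀ (exp ((n₁ + 1) / ε))) ⊆ Set.Iic n₁ := by
      rintro n ⟨-, m, hm⟩
      exact hn₁ n m hm
    have h2 := Set.ncard_le_ncard hsub (Set.finite_Iic _)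
    rw [← Finset.coe_Iic, Set.ncard_coe_finset, Nat.card_Iic] at h2
    have h3 : ((nearUpTo a b 1 (max Q₀ (exp ((n₁ + 1) / ε)))).ncard : ℝ) ≤ n₁ + 1 := by
      exact_mod_cast h2
    linarith
  · push Not at hbd
    -- parameters
    set η : ℝ := ε * lam / 8 with hη
    have hη0 : 0 < η := by positivity
    obtain ⟨M, hM⟩ := exists_nat_ge (1 / η + 1)
    have hMη : 1 / η ≤ M := by linarith
    have hM1 : 1 ≤ M := by
      have h1 : (0 : ℝ) < 1 / η := by positivity
      have h2 : (1 : ℝ) ≤ M := by linarith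
      exact_mod_cast h2
    obtain ⟨A₀, hA₀⟩ := block ha hb hθ hη0 M hM1
    set C1 : ℝ := |log (2 * C0)| with hC1
    -- a lower bound for q
    obtain ⟨W, hW⟩ : ∃ W : ℝ, W = max (max 1 (2 * |Q₀|)) (max (exp (lam * |A₀|))
        (max (exp (lam * k4)) (max (exp (C1 + 8 / ε + 8)) (4 * C0 / lam ^ 2 + 1)))) := ⟨_, rfl⟩
    obtain ⟨q₀, hq₀⟩ := exists_nat_ge W
    obtain ⟨c, hc, hgap⟩ := irr_gap hθ q₀
    obtain ⟨n₂, hn₂⟩ := exists_nat_ge (max (k4 : ℝ) (3 * C0 / (c * lam ^ 2) + 1))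
    obtain ⟨n, m, hnm, hn⟩ := hbd n₂
    have hnk4 : k4 ≤ n := by
      have h1 : (k4 : ℝ) ≤ n₂ := (le_max_left _ _).trans hn₂
      have h2 : k4 ≤ n₂ := by exact_mod_cast h1
      omega
    have hlin : |(n : ℝ) * θ - m| ≤ C0 * exp (-(lam * n)) :=
      near_lin ha hb hnm (hk4.le.trans (pow_le_pow_right₀ ha.le hnk4))
    have hn1 : 1 ≤ n := by omega
    have hn0 : (0 : ℝ) < n := by exact_mod_cast hn1
    have hn2 : 3 * C0 / (c * lam ^ 2) + 1 ≤ n := by
      refine (le_max_right _ _).trans (hn₂.trans ?_)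
      exact_mod_cast hn.le
    have hsmall : C0 * exp (-(lam * n)) < c := by
      have h1 : C0 * exp (-(lam * n)) ≤ C0 * (2 / (lam * n) ^ 2) :=
        mul_le_mul_of_nonneg_left (exp_neg_le (by positivity)) hC00.le
      have h2 : C0 * (2 / (lam * n) ^ 2) = 2 * C0 / lam ^ 2 / n / n := by field_simp
      have h3 : 2 * C0 / lam ^ 2 / n / n ≤ 2 * C0 / lam ^ 2 / n := by
        have hp : 0 < 2 * C0 / lam ^ 2 / (n : ℝ) := by positivity
        rw [div_le_iff₀ hn0]
        have : (1 : ℝ) ≤ n := by exact_mod_cast hn1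
        nlinarith
      have h4 : 2 * C0 / lam ^ 2 / n < c := by
        rw [div_lt_iff₀ hn0]
        have hp : 0 < 2 * C0 / (c * lam ^ 2) := by positivity
        have e1 : 3 * C0 / (c * lam ^ 2) = 3 / 2 * (2 * C0 / (c * lam ^ 2)) := by ring
        rw [e1] at hn2
        have h5 : 2 * C0 / (c * lam ^ 2) < n := by linarith
        have h6 := mul_lt_mul_of_pos_left h5 hc
        have e2 : c * (2 * C0 / (c * lam ^ 2)) = 2 * C0 / lam ^ 2 := by field_simp
        linarith
      linarith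
    obtain ⟨q, p, hq1, hqn, hqp, -, hred⟩ := reduced (θ := θ) (m := m) hn1
    have hqq₀ : q₀ < q := by
      by_contra hcon
      rw [not_lt] at hcon
      have := hgap q hq1 hcon p
      linarith
    have hqW : W < q := lt_of_le_of_lt hq₀ (by exact_mod_cast hqq₀)
    have hW1 : max (max 1 (2 * |Q₀|)) (max (exp (lam * |A₀|))
        (max (exp (lam * k4)) (max (exp (C1 + 8 / ε + 8)) (4 * C0 / lam ^ 2 + 1)))) < q := by
      rw [← hW]; exact hqW
    simp only [max_lt_iff] at hW1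
    obtain ⟨⟨w1, w2⟩, w3, w4, w5, w6⟩ := hW1
    have hq0 : (0 : ℝ) < q := by linarith
    have hlq : C1 + 8 / ε + 8 < log q := by
      rw [lt_log_iff_exp_lt hq0]; exact w5
    have hC1n : 0 ≤ C1 := abs_nonneg _
    have hε8 : 0 < 8 / ε := by positivity
    -- the near misses below q
    set A : ℝ := (log q + C1) / lam with hA
    have hAA : A₀ ≤ A := by
      have h1 : lam * |A₀| < log q := by rw [lt_log_iff_exp_lt hq0]; exact w3
      rw [hA, le_div_iff₀ hlam0]
      nlinarith [le_abs_self A₀]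
    have hA4 : (k4 : ℝ) ≤ A := by
      have h1 : lam * k4 < log q := by rw [lt_log_iff_exp_lt hq0]; exact w4
      rw [hA, le_div_iff₀ hlam0]
      nlinarith
    have hsub : nearUpTo a b 1 ((q : ℝ) / 2) ⊆ nearUpTo a b 1 A := by
      rintro n' ⟨hn'q, m', hm'⟩
      refine ⟨?_, m', hm'⟩
      by_cases h4 : n' < k4
      · have : (n' : ℝ) ≤ k4 := by exact_mod_cast h4.le
        linarith
      rw [not_lt] at h4
      rcases Nat.eq_zero_or_pos n' with h0 | h0
      · rw [h0]
        have : (0 : ℝ) ≤ k4 := Nat.cast_nonneg _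
        simpa using this.trans hA4
      have hl' : |(n' : ℝ) * θ - m'| ≤ C0 * exp (-(lam * n')) :=
        near_lin ha hb hm' (hk4.le.trans (pow_le_pow_right₀ ha.le h4))
      have hlq' : |(q : ℝ) * θ - p| ≤ C0 * exp (-(lam * q)) := by
        refine hred.trans (hlin.trans ?_)
        refine mul_le_mul_of_nonneg_left (exp_le_exp.2 ?_) hC00.le
        rw [neg_le_neg_iff]
        exact mul_le_mul_of_nonneg_left (by exact_mod_cast hqn) hlam0.le
      -- not proportional
      have hn'q' : n' < q := by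
        have : (n' : ℝ) < q := by linarith
        exact_mod_cast this
      have hne : ¬ (n' * p = q * m') := by
        intro h
        have h7 : q ∣ n' := (Nat.Coprime.dvd_mul_right hqp).1 ⟨m', h⟩
        exact absurd (Nat.le_of_dvd h0 h7) (by omega)
      have hge : 1 ≤ (n' : ℝ) * (C0 * exp (-(lam * q))) + q * (C0 * exp (-(lam * n'))) := by
        by_contra hcon
        rw [not_le] at hcon
        exact hne (prop_of hl' hlq' hcon)
      have hhalf : (n' : ℝ) * (C0 * exp (-(lam * q))) ≤ 1 / 2 := by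
        have h1 : C0 * exp (-(lam * q)) ≤ C0 * (2 / (lam * q) ^ 2) :=
          mul_le_mul_of_nonneg_left (exp_neg_le (by positivity)) hC00.le
        have h2 : (n' : ℝ) * (C0 * exp (-(lam * q))) ≤ q * (C0 * (2 / (lam * q) ^ 2)) := by
          refine mul_le_mul (by exact_mod_cast hn'q'.le) h1 (by positivity) hq0.le
        have h3 : (q : ℝ) * (C0 * (2 / (lam * q) ^ 2)) = 2 * C0 / lam ^ 2 / q := by field_simp
        have h5 : 2 * C0 / lam ^ 2 / q ≤ 1 / 2 := by
          rw [div_le_iff₀ hq0]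
          have e1 : 4 * C0 / lam ^ 2 = 2 * (2 * C0 / lam ^ 2) := by ring
          rw [e1] at w6
          linarith
        linarith
      have h6 : 1 / 2 ≤ q * (C0 * exp (-(lam * n'))) := by linarith
      have h7 : exp (lam * n') ≤ q * (2 * C0) := by
        rw [exp_neg] at h6
        have h8 := exp_pos (lam * (n' : ℝ))
        have h9 : (1 : ℝ) / 2 * exp (lam * n') ≤ q * (C0 * (exp (lam * n'))⁻¹) * exp (lam * n') :=
          mul_le_mul_of_nonneg_right h6 h8.le
        have h10 : (q : ℝ) * (C0 * (exp (lam * n'))⁻¹) * exp (lam * n') = q * C0 := by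
          field_simp
        rw [h10] at h9
        linarith
      have h8 : lam * n' ≤ log q + C1 := by
        have h9 := log_le_log (exp_pos _) h7
        rw [log_exp, log_mul hq0.ne' (by positivity)] at h9
        linarith [le_abs_self (log (2 * C0))]
      rw [hA, le_div_iff₀ hlam0]
      linarith
    have hcard := Set.ncard_le_ncard hsub (nearUpTo_fin A)
    have hcard' : ((nearUpTo a b 1 ((q : ℝ) / 2)).ncard : ℝ) ≤ ((nearUpTo a b 1 A).ncard : ℝ) := by
      exact_mod_cast hcard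
    refine ⟨(q : ℝ) / 2, ?_, ?_⟩
    · have := le_abs_self Q₀
      linarith
    have hb1 := hA₀ A hAA
    have hApos : 0 < A := by
      rw [hA]
      exact div_pos (by linarith) hlam0
    have hb2 : A / M ≤ η * A := by
      have hM0 : (0 : ℝ) < M := by exact_mod_cast hM1
      rw [div_le_iff₀ hM0]
      rw [div_le_iff₀ hη0] at hMη
      nlinarith
    have hb3 : η * A = ε / 8 * (log q + C1) := by
      rw [hA, hη]
      field_simp
    have hl2 : log ((q : ℝ) / 2) = log q - log 2 := log_div hq0.ne' (by norm_num)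
    have hlog2 : log 2 < 1 := by
      have := log_two_lt_d9
      linarith
    rw [hl2]
    have hfin : ε / 8 * (log q + C1) + ε / 8 * (log q + C1) + 2 ≤ ε * (log q - log 2) := by
      have h1 : ε * (8 / ε) = 8 := mul_div_cancel₀ 8 hε.ne'
      have h2 : ε * (C1 + 8 / ε + 8) ≤ ε * log q := mul_le_mul_of_nonneg_left hlq.le hε.le
      have h3 : 0 ≤ ε * C1 := mul_nonneg hε.le hC1n
      have h4 : ε * log 2 ≤ ε * 1 := mul_le_mul_of_nonneg_left hlog2.le hε.le
      have e1 : ε / 8 * (log q + C1) + ε / 8 * (log q + C1) + 2 =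
          1 / 4 * (ε * log q) + 1 / 4 * (ε * C1) + 2 := by ring
      have e2 : ε * (log q - log 2) = ε * log q - ε * log 2 := by ring
      have e3 : ε * (C1 + 8 / ε + 8) = ε * C1 + 8 + 8 * ε := by
        rw [mul_add, mul_add, h1]; ring
      rw [e3] at h2
      rw [e1, e2]
      linarith
    linarith

end Pool.Agent.H8T
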