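import Pool.Agent.H8T.Stm

/-!
# Project NT, piece SEQ (helper63)
-/

set_option autoImplicit false

namespace Pool.Agent.H8T

open Real Filter Topology

theorem SEQ_step (h : ℝ → ℝ) (hh : Tendsto h atTop atTop) (k A : ℕ) : ∃ B : ℕ, 4 * A + k + 4 < B ∧
    ∀ x : ℝ, 1 ≤ x → (B : ℝ) ≤ (k + 1) * 2 ^ A * log x ^ 2 → ((k : ℝ) + 1) * 2 ^ A ≤ h x := by
  obtain ⟨X₀, hX₀⟩ := eventually_atTop.1 (hh.eventually_ge_atTop (((k : ℝ) + 1) * 2 ^ A))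
  obtain ⟨X, hX⟩ : ∃ X, X = max X₀ 1 := ⟨_, rfl⟩
  have hX1 : 1 ≤ X := hX ▸ le_max_right _ _
  have hX2 : X₀ ≤ X := hX ▸ le_max_left _ _
  obtain ⟨B₀, hB₀⟩ := exists_nat_gt (((k : ℝ) + 1) * 2 ^ A * log X ^ 2)
  refine ⟨max B₀ (4 * A + k + 5), by omega, fun x hx hB => hX₀ x (hX2.trans ?_)⟩
  have h1 : (B₀ : ℝ) ≤ ((max B₀ (4 * A + k + 5) : ℕ) : ℝ) := by
    exact_mod_cast le_max_left _ _
  have h2 : ((k : ℝ) + 1) * 2 ^ A * log X ^ 2 < (k + 1) * 2 ^ A * log x ^ 2 :=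
    lt_of_lt_of_le hB₀ (h1.trans hB)
  have h3 : (0 : ℝ) < ((k : ℝ) + 1) * 2 ^ A := by positivity
  have h4 : log X ^ 2 < log x ^ 2 := lt_of_mul_lt_mul_left h2 h3.le
  have h5 : log X < log x := lt_of_pow_lt_pow_left₀ 2 (log_nonneg hx) h4
  have h6 : X < x := (log_lt_log_iff (by linarith) (by linarith)).1 h5
  exact h6.le

theorem t_SEQ : S_SEQ := by
  intro h hh n₀
  choose F hF1 hF2 using SEQ_step h hh
  exact ⟨fun k => Nat.rec n₀ (fun k A => F k A) k, rfl, fun k => hF1 k _, fun k x hx hB => hF2 k _ x hx hB⟩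

end Pool.Agent.H8T
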