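import Pool.Agent.R532.Nc2

/-!
# PROJECT NT (helper8), MP_606be1_nt (hard, powers of pi and e). Statements of the pieces (NOT results)

Every piece: file `Pool/Agent/H8T/NAME.lean`, `import Pool.Agent.H8T.Stm`, namespace `Pool.Agent.H8T`,
theorem `t_NAME : S_NAME`. Plain elementary analysis; `Pool.Agent.R532.Nc2` builds in 40 seconds.
`nearUpTo a b 1 T` is the set of the `n ≤ T` with a near miss `(n, m)`, `pairsUpTo a b 1 x T` the set of the pairs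
with `n ≤ T`, `|1 * a ^ n - b ^ m| ≤ x`.
-/

set_option autoImplicit false

namespace Pool.Agent.H8T

open Real Filter Topology
open Pool.Agent.R532.Nc (pairsUpTo nearUpTo nearMisses)

/-- SEQ (60 lines). PROOF. Recursion. Given `N k = A` let `X` be such that `x ≥ X` implies `h x ≥ (k+1) 2^A` (`tendsto_atTop`,
`eventually_atTop`; one may take `X ≥ 1`), and let `N (k+1)` be a natural number larger than `4 A + k + 4` and than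
`(k+1) 2^A (log X)^2`. If `x ≥ 1` and `N (k+1) ≤ (k+1) 2^A (log x)^2` then `(log X)^2 < (log x)^2`, so `log X < log x` (both
logarithms are nonnegative), `X ≤ x`. (Define a function `F k A` with `Classical.choose` and `N` by `Nat.rec`.) -/
def S_SEQ : Prop := ∀ h : ℝ → ℝ, Tendsto h atTop atTop → ∀ n₀ : ℕ, ∃ N : ℕ → ℕ, N 0 = n₀ ∧
  (∀ k, 4 * N k + k + 4 < N (k + 1)) ∧
  ∀ (k : ℕ) (x : ℝ), 1 ≤ x → (N (k + 1) : ℝ) ≤ (k + 1) * 2 ^ N k * log x ^ 2 → (k + 1) * 2 ^ N k ≤ h x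

/-- THE (100 lines). PROOF. `θ = P / 2^(N 0) + ∑' j, (1/2)^(N (j+1))`. As `N (j+1+i) ≥ N (j+1) + 2 i`, the tail `∑' i, (1/2)^(N (k+1+i))` is positive
and at most `(1/2)^(N (k+1)) * ∑' i, (1/4)^i ≤ 2 (1/2)^(N (k+1))`; for `k = 0`: `0 < tail < (1/2)^(N 0)` as `N 1 ≥ N 0 + 2`.
`p k = 2^(N k) * (P / 2^(N 0) + ∑ j < k, (1/2)^(N (j+1)))` is a natural number (`N` is increasing), and `2^(N k) θ - p k = 2^(N k) * tail`.
Irrational: if `θ = r / s` (`s ≥ 1`) then `2^(N k) θ - p k` is a positive multiple of `1/s` for each `k`, but it is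
`≤ 2 * 2^(N k) / 2^(N (k+1)) ≤ 2 / 2^(k+2)`, which tends to `0`. -/
def S_THE : Prop := ∀ N : ℕ → ℕ, (∀ k, 4 * N k + k + 4 < N (k + 1)) → ∀ P : ℕ, ∃ θ : ℝ,
  (P : ℝ) / 2 ^ N 0 < θ ∧ θ < (P + 1) / 2 ^ N 0 ∧ Irrational θ ∧
  ∀ k, ∃ p : ℕ, |2 ^ N k * θ - p| ≤ 2 * 2 ^ N k / 2 ^ N (k + 1)

/-- CNT (100 lines). PROOF. Let `θ = log a / log b`, `|q θ - p| ≤ exp (-L)`. For `1 ≤ j ≤ J` the pair `(j q, j p)` is in
`pairsUpTo a b 1 x T`: with `d = (j q) log a - (j p) log b = j (q θ - p) log b`, `|d| ≤ j log b exp (-L)`,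
`|a^(jq) - b^(jp)| = a^(jq) |1 - exp (-d)| ≤ 2 a^(jq) |d|` if `|d| ≤ 1` (`Real.abs_exp_sub_one_le`), and
`2 a^(jq) |d| ≤ exp (j q log a + log (2 log b + 1) + j - L) ≤ 1` (`j ≤ exp j`) as soon as
`j q log a + j + log (2 log b + 1) ≤ L`; this holds for `L ≥ L₀ = 2 log (2 log b + 1)`, `j q ≤ c L` with `c = 1 / (2 (log a + 1))`. (`|d| ≤ 1`
follows from the same inequality.) The map `j ↦ (j q, j p)` is injective on `1..J` (`q ≥ 1`); the set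
`pairsUpTo a b 1 x T` is finite (`n ≤ T` and `b^m ≤ a^n + x ≤ a^⌈T⌉ + x`, and `b^m → ∞`). -/
def S_CNT : Prop := ∀ a b : ℝ, 1 < a → 1 < b → ∃ c L₀ : ℝ, 0 < c ∧ ∀ (q p J : ℕ) (L : ℝ), 1 ≤ q → L₀ ≤ L →
  |q * (log a / log b) - p| ≤ exp (-L) → (J : ℝ) * q ≤ c * L → ∀ x T : ℝ, 1 ≤ x → (J : ℝ) * q ≤ T →
  (J : ℝ) ≤ ((pairsUpTo a b 1 x T).ncard : ℕ)

/-- FIN (120 lines, `t_FIN (h1 : S_SEQ) (h2 : S_THE) (h3 : S_CNT) : S_FIN`). PROOF. Let `α = log u / log b < β = log v / log b`; choose `n₀`, `P` with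
`α ≤ P / 2^n₀`, `(P + 1) / 2^n₀ ≤ β` (`2^n₀ (β - α) ≥ 2`, `P = ⌈2^n₀ α⌉₊`). Take `N` from SEQ, `θ` from THE, `a = exp (θ log b)`, so
`log a / log b = θ`, `u < a < v`. Let `c`, `L₀` be from CNT. `q = 2^(N k)`, `L = (N (k+1) - N k) log 2 - log 2`:
`2 * 2^(N k) / 2^(N (k+1)) = exp (-L)`, and `L ≥ N (k+1) / 4` (as `N k ≤ N (k+1) / 4`, `N (k+1) ≥ 4`, `log 2 ≥ 0.69`),
`L ≥ L₀` for large `k`. Fix `M ≥ 1`; `x` large, `ℓ = log x`. Let `k` be the least number with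
`M ℓ^2 + 1 ≤ (c/4) N (k+1) / 2^(N k)`; it exists, and `k → ∞` as `x → ∞`. `J = ⌈M ℓ^2⌉₊ ≤ M ℓ^2 + 1`, `J q ≤ c L`. For `k ≥ 1`
by minimality `(c/4) N k < (M ℓ^2 + 1) 2^(N (k-1)) ≤ 2 M ℓ^2 2^(N (k-1))`, so `N k ≤ k 2^(N (k-1)) ℓ^2` when `k ≥ 8 M / c`, so `k 2^(N (k-1)) ≤ h x`,
and `log (J q) ≤ log (M ℓ^2 + 1) + N k ≤ M ℓ^2 + N k ≤ (M + (8 M / c) 2^(N (k-1))) ℓ^2 ≤ k 2^(N (k-1)) ℓ^2 ≤ h x ℓ^2` when `k ≥ M + 8 M / c`.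
So `J q ≤ T = exp (h x * ℓ^2)` and CNT gives `M ℓ^2 ≤ J ≤ ncard`. -/
def S_FIN : Prop := ∀ (b u v : ℝ) (h : ℝ → ℝ), 1 < b → 1 < u → u < v → Tendsto h atTop atTop →
  ∃ a : ℝ, u < a ∧ a < v ∧ Irrational (log a / log b) ∧
    ∀ M : ℝ, ∃ x₀ : ℝ, ∀ x : ℝ, x₀ ≤ x →
      M * log x ^ 2 ≤ ((pairsUpTo a b 1 x (exp (h x * log x ^ 2))).ncard : ℕ)

end Pool.Agent.H8T
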