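import Pool.Agent.H8T.Stm

/-! # Piece THE of PROJECT NT (helper38): `θ = P / 2^(N 0) + ∑ 2^(-N (j+1))` -/

set_option autoImplicit false
namespace Pool.Agent.H8T

open Real Filter Topology

namespace THEx

lemma grow (N : ℕ → ℕ) (hN : ∀ k, 4 * N k + k + 4 < N (k + 1)) (k i : ℕ) :
    N (k + 1) + 2 * i ≤ N (i + k + 1) := by
  induction i with
  | zero => simp
  | succ i ih =>
    have h := hN (i + k + 1)
    have e : i + 1 + k + 1 = i + k + 1 + 1 := by ring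
    rw [e]
    omega

/-- partial sums are dyadic rationals -/
lemma part (N : ℕ → ℕ) (hN : ∀ k, 4 * N k + k + 4 < N (k + 1)) (P : ℕ) (k : ℕ) :
    ∃ p : ℕ, (P : ℝ) / 2 ^ N 0 + ∑ j ∈ Finset.range k, (1 / 2 : ℝ) ^ (N (j + 1)) = p / 2 ^ N k := by
  induction k with
  | zero => exact ⟨P, by simp⟩
  | succ k ih =>
    obtain ⟨p, hp⟩ := ih
    refine ⟨p * 2 ^ (N (k + 1) - N k) + 1, ?_⟩
    rw [Finset.sum_range_succ, ← add_assoc, hp]
    have h1 : N (k + 1) = N k + (N (k + 1) - N k) := by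
      have := hN k
      omega
    have h2 : (2 : ℝ) ^ N (k + 1) = 2 ^ N k * 2 ^ (N (k + 1) - N k) := by
      rw [← pow_add, ← h1]
    have h3 : (1 / 2 : ℝ) ^ N (k + 1) = 1 / 2 ^ N (k + 1) := by
      rw [one_div, inv_pow, one_div]
    have h4 : (2 : ℝ) ^ N k ≠ 0 := by positivity
    have h5 : (2 : ℝ) ^ (N (k + 1) - N k) ≠ 0 := by positivity
    rw [h3, h2]
    push_cast
    field_simp

lemma le_geo (N : ℕ → ℕ) (hN : ∀ k, 4 * N k + k + 4 < N (k + 1)) (k i : ℕ) :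
    (1 / 2 : ℝ) ^ (N (i + k + 1)) ≤ (1 / 2 : ℝ) ^ (N (k + 1)) * (1 / 4) ^ i := by
  have h := grow N hN k i
  calc (1 / 2 : ℝ) ^ (N (i + k + 1)) ≤ (1 / 2 : ℝ) ^ (N (k + 1) + 2 * i) :=
        pow_le_pow_of_le_one (by norm_num) (by norm_num) h
    _ = (1 / 2 : ℝ) ^ (N (k + 1)) * (1 / 4) ^ i := by
        rw [pow_add, pow_mul]
        norm_num

lemma sumk (N : ℕ → ℕ) (hN : ∀ k, 4 * N k + k + 4 < N (k + 1)) (k : ℕ) :
    Summable (fun i : ℕ => (1 / 2 : ℝ) ^ (N (i + k + 1))) := by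
  refine Summable.of_nonneg_of_le (fun i => by positivity) (le_geo N hN k) ?_
  exact (summable_geometric_of_lt_one (by norm_num) (by norm_num)).mul_left _

lemma tail_le (N : ℕ → ℕ) (hN : ∀ k, 4 * N k + k + 4 < N (k + 1)) (k : ℕ) :
    ∑' i : ℕ, (1 / 2 : ℝ) ^ (N (i + k + 1)) ≤ 2 * (1 / 2) ^ N (k + 1) := by
  have hg : Summable (fun i : ℕ => (1 / 2 : ℝ) ^ (N (k + 1)) * (1 / 4) ^ i) :=
    (summable_geometric_of_lt_one (by norm_num) (by norm_num)).mul_left _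
  calc ∑' i : ℕ, (1 / 2 : ℝ) ^ (N (i + k + 1))
      ≤ ∑' i : ℕ, (1 / 2 : ℝ) ^ (N (k + 1)) * (1 / 4) ^ i :=
        (sumk N hN k).tsum_le_tsum (le_geo N hN k) hg
    _ = (1 / 2 : ℝ) ^ (N (k + 1)) * (1 - 1 / 4)⁻¹ := by
        rw [tsum_mul_left, tsum_geometric_of_lt_one (by norm_num) (by norm_num)]
    _ ≤ 2 * (1 / 2) ^ N (k + 1) := by
        rw [mul_comm]
        have : (0 : ℝ) ≤ (1 / 2) ^ N (k + 1) := by positivity
        exact mul_le_mul_of_nonneg_right (by norm_num) this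

lemma tail_pos (N : ℕ → ℕ) (hN : ∀ k, 4 * N k + k + 4 < N (k + 1)) (k : ℕ) :
    0 < ∑' i : ℕ, (1 / 2 : ℝ) ^ (N (i + k + 1)) :=
  (sumk N hN k).tsum_pos (fun i => by positivity) 0 (by positivity)

end THEx

open THEx in
theorem t_THE : S_THE := by
  intro N hN P
  set θ : ℝ := (P : ℝ) / 2 ^ N 0 + ∑' i : ℕ, (1 / 2 : ℝ) ^ (N (i + 1)) with hθ
  have hs : Summable (fun i : ℕ => (1 / 2 : ℝ) ^ (N (i + 1))) := sumk N hN 0
  have key : ∀ k : ℕ, ∃ p : ℕ, 2 ^ N k * θ - p = 2 ^ N k * ∑' i : ℕ, (1 / 2 : ℝ) ^ (N (i + k + 1)) := by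
    intro k
    obtain ⟨p, hp⟩ := part N hN P k
    refine ⟨p, ?_⟩
    have h1 := hs.sum_add_tsum_nat_add k
    have h4 : (2 : ℝ) ^ N k ≠ 0 := by positivity
    have h2 : θ = p / 2 ^ N k + ∑' i : ℕ, (1 / 2 : ℝ) ^ (N (i + k + 1)) := by
      rw [hθ, ← h1, ← add_assoc, hp]
    rw [h2, mul_add, mul_div_cancel₀ _ h4]
    ring
  have half : ∀ n : ℕ, (1 / 2 : ℝ) ^ n = 1 / 2 ^ n := fun n => by
    rw [one_div, inv_pow, one_div]
  refine ⟨θ, ?_, ?_, ?_, ?_⟩
  · have := tail_pos N hN 0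
    simp only [Nat.add_zero] at this
    rw [hθ]
    linarith
  · have h1 := tail_le N hN 0
    simp only [Nat.add_zero, Nat.zero_add] at h1
    have h2 : 2 * (1 / 2 : ℝ) ^ N 1 < 1 / 2 ^ N 0 := by
      have h3 := hN 0
      simp only [Nat.zero_add] at h3
      have h5 : N 0 + 2 ≤ N 1 := by omega
      calc 2 * (1 / 2 : ℝ) ^ N 1 ≤ 2 * (1 / 2 : ℝ) ^ (N 0 + 2) := by
            have := pow_le_pow_of_le_one (by norm_num : (0 : ℝ) ≤ 1 / 2) (by norm_num) h5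
            linarith
        _ = (1 / 2) * (1 / 2 : ℝ) ^ (N 0) := by rw [pow_add]; ring
        _ < 1 / 2 ^ N 0 := by
            rw [half]
            have : (0 : ℝ) < 1 / 2 ^ N 0 := by positivity
            linarith
    rw [hθ, add_div]
    linarith
  · rintro ⟨r, hr⟩
    obtain ⟨p, hp⟩ := key r.den
    have hpos := tail_pos N hN r.den
    have hle := tail_le N hN r.den
    have hN1 := hN r.den
    have hN2 : N r.den + r.den + 2 ≤ N (r.den + 1) := by omega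
    have hd : (0 : ℝ) < r.den := by exact_mod_cast r.den_pos
    -- upper bound
    have hup : 2 ^ N r.den * θ - p ≤ 2 * (1 / 2) ^ (r.den + 2) := by
      rw [hp]
      have h6 : (1 / 2 : ℝ) ^ N (r.den + 1) ≤ (1 / 2) ^ (N r.den + r.den + 2) :=
        pow_le_pow_of_le_one (by norm_num) (by norm_num) hN2
      have h7 : (2 : ℝ) ^ N r.den * (1 / 2) ^ (N r.den + r.den + 2) = (1 / 2) ^ (r.den + 2) := by
        rw [add_assoc, pow_add (1 / 2 : ℝ) (N r.den), ← mul_assoc, ← mul_pow]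
        norm_num
      have h8 : (0 : ℝ) < 2 ^ N r.den := by positivity
      calc 2 ^ N r.den * ∑' i : ℕ, (1 / 2 : ℝ) ^ (N (i + r.den + 1))
          ≤ 2 ^ N r.den * (2 * (1 / 2) ^ (N r.den + r.den + 2)) :=
            mul_le_mul_of_nonneg_left (hle.trans (by linarith)) h8.le
        _ = 2 * (2 ^ N r.den * (1 / 2) ^ (N r.den + r.den + 2)) := by ring
        _ = 2 * (1 / 2) ^ (r.den + 2) := by rw [h7]
    have hlow : 0 < 2 ^ N r.den * θ - p := by
      rw [hp]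
      positivity
    -- integrality
    have hr2 : θ = (r.num : ℝ) / r.den := by
      rw [← hr]
      exact_mod_cast (Rat.num_div_den r).symm
    have h9 : (2 ^ N r.den * θ - p) * r.den = ((2 ^ N r.den * r.num - p * r.den : ℤ) : ℝ) := by
      rw [hr2]
      push_cast
      field_simp
    have h10 : (0 : ℝ) < ((2 ^ N r.den * r.num - p * r.den : ℤ) : ℝ) := by
      rw [← h9]
      exact mul_pos hlow hd
    have h11 : (1 : ℝ) ≤ ((2 ^ N r.den * r.num - p * r.den : ℤ) : ℝ) := by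
      exact_mod_cast Int.add_one_le_iff.2 (by exact_mod_cast h10 : (0 : ℤ) < _)
    rw [← h9] at h11
    have h12 : (r.den : ℝ) < 2 ^ r.den := by exact_mod_cast Nat.lt_two_pow_self
    have h13 : (2 * (1 / 2 : ℝ) ^ (r.den + 2)) * r.den < 1 := by
      rw [pow_add, half]
      have h14 : (0 : ℝ) < 2 ^ r.den := by positivity
      have h15 : 2 * (1 / 2 ^ r.den * (1 / 2 : ℝ) ^ 2) * (r.den : ℝ) = (r.den / 2 ^ r.den) / 2 := by ring
      rw [h15]
      have h16 : (r.den : ℝ) / 2 ^ r.den < 1 := (div_lt_one h14).2 h12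
      linarith
    have h17 : (2 ^ N r.den * θ - p) * r.den ≤ (2 * (1 / 2 : ℝ) ^ (r.den + 2)) * r.den :=
      mul_le_mul_of_nonneg_right hup hd.le
    linarith
  · intro k
    obtain ⟨p, hp⟩ := key k
    refine ⟨p, ?_⟩
    rw [hp, abs_of_pos (mul_pos (by positivity) (tail_pos N hN k))]
    have h8 : (0 : ℝ) < 2 ^ N k := by positivity
    calc 2 ^ N k * ∑' i : ℕ, (1 / 2 : ℝ) ^ (N (i + k + 1))
        ≤ 2 ^ N k * (2 * (1 / 2) ^ N (k + 1)) := mul_le_mul_of_nonneg_left (tail_le N hN k) h8.le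
      _ = 2 * 2 ^ N k / 2 ^ N (k + 1) := by
          rw [half]
          ring

end Pool.Agent.H8T
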